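import Mathlib

/-!
# Self-dual minor-closed classes containing all independence spaces (MP_cb2a9f_co, Q1)

The independence spaces together with their duals form an admissible system. It is the least
admissible system containing all independence spaces, and on every infinite set it misses a
B-matroid. So Q1 has a negative answer, for every infinite set `S`.
-/

set_option autoImplicit false

namespace Pool.Agent.Results.MP_cb2a9f_co.LeastAdmissible

open Set
open scoped Matroid

variable {S : Type*}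

/-! ### Definitions used in the statement -/

/-- `B` is a basis of the family `I`: a maximal member of `I`. -/
def IsBasis (I : Set (Set S)) (B : Set S) : Prop := Maximal (fun X => X ∈ I) B

/-- `(W, I)` is a pre-independence space. -/
structure PreIndependenceSpace (W : Set S) (I : Set (Set S)) : Prop where
  sub : ∀ X ∈ I, X ⊆ W
  empty : ∅ ∈ I
  down : ∀ X ∈ I, ∀ Y, Y ⊆ X → Y ∈ I
  aug : ∀ X ∈ I, ∀ Y ∈ I, X.Finite → Y.Finite → X.ncard < Y.ncard → ∃ e ∈ Y \ X, insert e X ∈ I

/-- `(W, I)` is an independence space. -/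
structure IndependenceSpace (W : Set S) (I : Set (Set S)) : Prop extends
    PreIndependenceSpace W I where
  compact : ∀ Y, Y ⊆ W → (∀ F, F ⊆ Y → F.Finite → F ∈ I) → Y ∈ I

/-- The set of the maximal members of `{Y ∈ I : Y ⊆ X}`. -/
def maxIn (I : Set (Set S)) (X : Set S) : Set (Set S) := {B | Maximal (fun Y => Y ∈ I ∧ Y ⊆ X) B}

/-- `(W, I)` is a B-matroid. -/
structure BMatroid (W : Set S) (I : Set (Set S)) : Prop where
  sub : ∀ X ∈ I, X ⊆ W
  empty : ∅ ∈ I
  down : ∀ X ∈ I, ∀ Y, Y ⊆ X → Y ∈ I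
  IB1 : ∀ X, X ⊆ W → ∀ T ∈ I, T ⊆ X → ∃ B ∈ maxIn I X, T ⊆ B
  IB2 : ∀ X, X ⊆ W → ∀ B₁ ∈ maxIn I X, ∀ B₂ ∈ maxIn I X, ∀ x ∈ B₁ \ B₂,
    ∃ y ∈ B₂ \ B₁, insert y (B₁ \ {x}) ∈ maxIn I X

/-- The restriction of `I` to `Z`. -/
def restr (I : Set (Set S)) (Z : Set S) : Set (Set S) := {Y | Y ⊆ Z ∧ Y ∈ I}

/-- The contraction of `I` to `Z`, computed with `B` (a basis of the restriction of `I` to the
complement of `Z`). -/
def contr (I : Set (Set S)) (Z B : Set S) : Set (Set S) := {Y | Y ⊆ Z ∧ Y ∪ B ∈ I}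

/-- The dual of the family `I` of subsets of `W`. -/
def dual (W : Set S) (I : Set (Set S)) : Set (Set S) := {X | X ⊆ W ∧ ∃ B, IsBasis I B ∧ B ⊆ W \ X}

/-- `D` is an admissible system on the infinite set `S`. -/
structure Admissible (D : Set S → Set (Set (Set S))) : Prop where
  pre : ∀ W, ∀ I ∈ D W, PreIndependenceSpace W I
  restr_mem : ∀ W, ∀ I ∈ D W, ∀ Z, Z ⊆ W → restr I Z ∈ D Z
  contr_basis : ∀ W, ∀ I ∈ D W, ∀ Z, Z ⊆ W → ∃ B, IsBasis (restr I (W \ Z)) B
  contr_indep : ∀ W, ∀ I ∈ D W, ∀ Z, Z ⊆ W → ∀ B B', IsBasis (restr I (W \ Z)) B →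
    IsBasis (restr I (W \ Z)) B' → contr I Z B = contr I Z B'
  contr_mem : ∀ W, ∀ I ∈ D W, ∀ Z, Z ⊆ W → ∀ B, IsBasis (restr I (W \ Z)) B →
    contr I Z B ∈ D Z
  dual_mem : ∀ W, ∀ I ∈ D W, dual W I ∈ D W
  dual_dual : ∀ W, ∀ I ∈ D W, dual W (dual W I) = I

/-- The independence spaces on `W` and their duals. -/
def indepOrDual (W : Set S) : Set (Set (Set S)) :=
  {I | IndependenceSpace W I ∨ ∃ J, IndependenceSpace W J ∧ I = dual W J}

theorem mem_maxIn {I : Set (Set S)} {X B : Set S} :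
    B ∈ maxIn I X ↔ Maximal (fun Y => Y ∈ I ∧ Y ⊆ X) B := Iff.rfl

/-! ### The family is admissible -/

/-- The independent sets of a matroid. -/
def ind (M : Matroid S) : Set (Set S) := {X | M.Indep X}

theorem ind_inj {M N : Matroid S} (hE : M.E = N.E) (h : ind M = ind N) : M = N :=
  Matroid.ext_indep hE fun X _ => by
    have : X ∈ ind M ↔ X ∈ ind N := by rw [h]
    exact this

theorem exists_matroid {W : Set S} {J : Set (Set S)} (h : IndependenceSpace W J) :
    ∃ M : Matroid S, M.Finitary ∧ M.E = W ∧ ind M = J := by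
  refine ⟨(IndepMatroid.ofFinitaryCardAugment W (fun X => X ∈ J) h.empty
    (fun I K hK hIK => h.down K hK I hIK) ?_ ?_ h.sub).matroid, ?_, rfl, rfl⟩
  · intro I K hI hIf hK hKf hlt
    obtain ⟨e, he, hins⟩ := h.aug I hI K hK hIf hKf hlt
    exact ⟨e, he.1, he.2, hins⟩
  · intro I hI
    refine h.compact I ?_ hI
    intro x hx
    exact h.sub {x} (hI {x} (by simpa using hx) (finite_singleton x)) rfl
  · infer_instance

theorem pre_ind (M : Matroid S) : PreIndependenceSpace M.E (ind M) where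
  sub X hX := Matroid.Indep.subset_ground hX
  empty := M.empty_indep
  down X hX Y hY := Matroid.Indep.subset hX hY
  aug X hX Y hY hXf hYf hlt := by
    refine Matroid.Indep.augment hX hY ?_
    rw [← hXf.cast_ncard_eq, ← hYf.cast_ncard_eq]
    exact_mod_cast hlt

theorem indep_ind (M : Matroid S) (hM : M.Finitary) : IndependenceSpace M.E (ind M) where
  toPreIndependenceSpace := pre_ind M
  compact Y _ h := Matroid.indep_of_forall_finite_subset_indep Y h

theorem isBasis_ind {M : Matroid S} {B : Set S} : IsBasis (ind M) B ↔ M.IsBase B := by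
  rw [Matroid.isBase_iff_maximal_indep]
  rfl

theorem dual_ind (M : Matroid S) : dual M.E (ind M) = ind M✶ := by
  ext X
  simp only [dual, ind, mem_ofPred_eq, Matroid.dual_indep_iff_exists']
  constructor
  · rintro ⟨h, B, hB, hBX⟩
    exact ⟨h, B, isBasis_ind.1 hB, (subset_sdiff.1 hBX).2.symm⟩
  · rintro ⟨h, B, hB, hBX⟩
    exact ⟨h, B, isBasis_ind.2 hB, subset_sdiff.2 ⟨hB.subset_ground, hBX.symm⟩⟩

theorem restr_ind (M : Matroid S) (Z : Set S) : restr (ind M) Z = ind (M ↾ Z) := by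
  ext X
  simp only [restr, ind, mem_ofPred_eq, Matroid.restrict_indep_iff]
  exact and_comm

theorem isBasis_restr {M : Matroid S} {Z B : Set S} (hZ : Z ⊆ M.E) :
    IsBasis (restr (ind M) Z) B ↔ M.IsBasis B Z := by
  rw [restr_ind, isBasis_ind, Matroid.isBase_restrict_iff hZ]

theorem contr_ind {M : Matroid S} {Z B : Set S} (hZ : Z ⊆ M.E)
    (hB : IsBasis (restr (ind M) (M.E \ Z)) B) : contr (ind M) Z B = ind (M ／ (M.E \ Z)) := by
  have hB' := (isBasis_restr sdiff_subset).1 hB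
  ext X
  simp only [contr, ind, mem_ofPred_eq, hB'.contract_indep_iff]
  constructor
  · rintro ⟨h1, h2⟩
    refine ⟨h2, disjoint_left.2 fun x hx hx' => hx.2 (h1 hx')⟩
  · rintro ⟨h1, h2⟩
    refine ⟨fun x hx => ?_, h1⟩
    by_contra hc
    exact disjoint_left.1 h2 ⟨h1.subset_ground (Or.inl hx), hc⟩ hx

/-- Description of the family in terms of matroids. -/
theorem mem_iff {W : Set S} {I : Set (Set S)} : I ∈ indepOrDual W ↔
    ∃ M : Matroid S, (M.Finitary ∨ M✶.Finitary) ∧ M.E = W ∧ I = ind M := by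
  constructor
  · rintro (h | ⟨J, h, rfl⟩)
    · obtain ⟨M, hf, hE, rfl⟩ := exists_matroid h
      exact ⟨M, Or.inl hf, hE, rfl⟩
    · obtain ⟨M, hf, rfl, rfl⟩ := exists_matroid h
      refine ⟨M✶, Or.inr ?_, rfl, dual_ind M⟩
      rwa [Matroid.dual_dual]
  · rintro ⟨M, hf | hf, rfl, rfl⟩
    · exact Or.inl (indep_ind M hf)
    · refine Or.inr ⟨ind M✶, indep_ind M✶ hf, ?_⟩
      have := dual_ind M✶
      rw [Matroid.dual_dual] at this
      exact this.symm

theorem admissible : Admissible (indepOrDual (S := S)) where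
  pre W I hI := by
    obtain ⟨M, -, rfl, rfl⟩ := mem_iff.1 hI
    exact pre_ind M
  restr_mem W I hI Z hZ := by
    obtain ⟨M, hf, rfl, rfl⟩ := mem_iff.1 hI
    refine mem_iff.2 ⟨M ↾ Z, ?_, rfl, restr_ind M Z⟩
    rcases hf with hf | hf
    · exact Or.inl inferInstance
    · right
      have h1 : M ↾ Z = M ＼ (M.E \ Z) := by
        rw [Matroid.delete_eq_restrict, sdiff_sdiff_cancel_left hZ]
      rw [h1, Matroid.dual_delete]
      infer_instance
  contr_basis W I hI Z hZ := by
    obtain ⟨M, hf, rfl, rfl⟩ := mem_iff.1 hI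
    obtain ⟨B, hB⟩ := M.exists_isBasis (M.E \ Z)
    exact ⟨B, (isBasis_restr sdiff_subset).2 hB⟩
  contr_indep W I hI Z hZ B B' hB hB' := by
    obtain ⟨M, hf, rfl, rfl⟩ := mem_iff.1 hI
    rw [contr_ind hZ hB, contr_ind hZ hB']
  contr_mem W I hI Z hZ B hB := by
    obtain ⟨M, hf, rfl, rfl⟩ := mem_iff.1 hI
    refine mem_iff.2 ⟨M ／ (M.E \ Z), ?_, ?_, contr_ind hZ hB⟩
    · rcases hf with hf | hf
      · exact Or.inl inferInstance
      · right
        rw [Matroid.dual_contract]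
        infer_instance
    · rw [Matroid.contract_ground, sdiff_sdiff_cancel_left hZ]
  dual_mem W I hI := by
    obtain ⟨M, hf, rfl, rfl⟩ := mem_iff.1 hI
    refine mem_iff.2 ⟨M✶, ?_, rfl, dual_ind M⟩
    rw [Matroid.dual_dual]
    exact hf.symm
  dual_dual W I hI := by
    obtain ⟨M, hf, rfl, rfl⟩ := mem_iff.1 hI
    rw [dual_ind]
    have := dual_ind M✶
    rw [Matroid.dual_dual] at this
    exact this

/-! ### A B-matroid outside the family -/

/-- The direct sum of the rank one uniform matroid on `A` and of the dual of the rank one uniform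
matroid on `B`. -/
def ex (A B : Set S) : Set (Set S) :=
  {X | X ⊆ A ∪ B ∧ (∀ x ∈ X ∩ A, ∀ y ∈ X ∩ A, x = y) ∧ ∃ b ∈ B, b ∉ X}

theorem ex_down {A B X Y : Set S} (hX : X ∈ ex A B) (hY : Y ⊆ X) : Y ∈ ex A B := by
  obtain ⟨h1, h2, b, hb, hbX⟩ := hX
  exact ⟨hY.trans h1, fun x hx y hy => h2 x ⟨hY hx.1, hx.2⟩ y ⟨hY hy.1, hy.2⟩, b, hb,
    fun h => hbX (hY h)⟩

theorem mem_maxIn_iff {A B X Y : Set S} (hAB : Disjoint A B) (hX : X ⊆ A ∪ B) :
    Y ∈ maxIn (ex A B) X ↔ Y ∈ ex A B ∧ Y ⊆ X ∧ (∀ e ∈ X ∩ A, e ∉ Y → ∃ a ∈ A, a ∈ Y) ∧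
      ∀ e ∈ X ∩ B, e ∉ Y → B ⊆ insert e Y := by
  constructor
  · intro h0
    have h := mem_maxIn.1 h0
    refine ⟨h.prop.1, h.prop.2, ?_, ?_⟩
    · intro e he heY
      by_contra hc
      push Not at hc
      obtain ⟨h1, h2, b, hb, hbY⟩ := h.prop.1
      have hins : insert e Y ∈ ex A B := by
        refine ⟨insert_subset (Or.inl he.2) h1, ?_, b, hb, ?_⟩
        · rintro x ⟨rfl | hx, hxA⟩ y ⟨rfl | hy, hyA⟩
          · rfl
          · exact absurd hy (hc y hyA)
          · exact absurd hx (hc x hxA)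
          · exact absurd hx (hc x hxA)
        · rintro (rfl | h')
          · exact disjoint_left.1 hAB he.2 hb
          · exact hbY h'
      have := h.le_of_ge ⟨hins, insert_subset he.1 h.prop.2⟩ (subset_insert _ _)
      exact heY (this (mem_insert _ _))
    · intro e he heY
      by_contra hc
      rw [not_subset] at hc
      obtain ⟨b, hb, hbY⟩ := hc
      obtain ⟨h1, h2, -⟩ := h.prop.1
      have hins : insert e Y ∈ ex A B := by
        refine ⟨insert_subset (Or.inr he.2) h1, ?_, b, hb, hbY⟩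
        rintro x ⟨rfl | hx, hxA⟩ y ⟨rfl | hy, hyA⟩
        · rfl
        · exact absurd he.2 (disjoint_left.1 hAB hxA)
        · exact absurd he.2 (disjoint_left.1 hAB hyA)
        · exact h2 x ⟨hx, hxA⟩ y ⟨hy, hyA⟩
      have := h.le_of_ge ⟨hins, insert_subset he.1 h.prop.2⟩ (subset_insert _ _)
      exact heY (this (mem_insert _ _))
  · rintro ⟨h1, h2, h3, h4⟩
    refine ⟨⟨h1, h2⟩, ?_⟩
    rintro Z ⟨hZ1, hZ2⟩ hYZ e he
    by_contra heY
    rcases hX (hZ2 he) with hA | hB
    · obtain ⟨a, ha, haY⟩ := h3 e ⟨hZ2 he, hA⟩ heY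
      have := hZ1.2.1 a ⟨hYZ haY, ha⟩ e ⟨he, hA⟩
      subst this
      exact heY haY
    · obtain ⟨b, hb, hbZ⟩ := hZ1.2.2
      rcases h4 e ⟨hZ2 he, hB⟩ heY hb with rfl | h5
      · exact hbZ he
      · exact hbZ (hYZ h5)

theorem bmatroid_ex {A B : Set S} (hAB : Disjoint A B) (hB : B.Nonempty) :
    BMatroid (A ∪ B) (ex A B) where
  sub X hX := hX.1
  empty := by
    obtain ⟨b, hb⟩ := hB
    exact ⟨empty_subset _, by simp, b, hb, by simp⟩
  down X hX Y hY := ex_down hX hY
  IB1 X hX T hT hTX := by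
    -- the element of `B` left out
    obtain ⟨b, hb, hbT, hbX⟩ : ∃ b ∈ B, b ∉ T ∧ (b ∈ X → B ⊆ X) := by
      by_cases h : B ⊆ X
      · obtain ⟨-, -, b, hb, hbT⟩ := hT
        exact ⟨b, hb, hbT, fun _ => h⟩
      · rw [not_subset] at h
        obtain ⟨b, hb, hbX⟩ := h
        exact ⟨b, hb, fun h' => hbX (hTX h'), fun h' => absurd h' hbX⟩
    -- the part in `A`
    obtain ⟨P, hP1, hP2, hP3, hP4⟩ : ∃ P : Set S, T ∩ A ⊆ P ∧ P ⊆ X ∩ A ∧
        (∀ x ∈ P, ∀ y ∈ P, x = y) ∧ ((X ∩ A).Nonempty → P.Nonempty) := by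
      by_cases h : (T ∩ A).Nonempty
      · exact ⟨T ∩ A, le_rfl, inter_subset_inter_left _ hTX, hT.2.1, fun _ => h⟩
      · rw [not_nonempty_iff_eq_empty] at h
        by_cases h' : (X ∩ A).Nonempty
        · obtain ⟨a, ha⟩ := h'
          exact ⟨{a}, by simp [h], by simpa using ha, by simp, fun _ => ⟨a, rfl⟩⟩
        · exact ⟨∅, by simp [h], empty_subset _, by simp, fun h'' => absurd h'' h'⟩
    refine ⟨P ∪ ((X ∩ B) \ {b}), ?_, ?_⟩
    · rw [mem_maxIn_iff hAB hX]
      refine ⟨⟨?_, ?_, b, hb, ?_⟩, ?_, ?_, ?_⟩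
      · rintro x (hx | hx)
        · exact Or.inl (hP2 hx).2
        · exact Or.inr hx.1.2
      · rintro x ⟨hx | hx, hxA⟩ y ⟨hy | hy, hyA⟩
        · exact hP3 x hx y hy
        · exact absurd hy.1.2 (disjoint_left.1 hAB hyA)
        · exact absurd hx.1.2 (disjoint_left.1 hAB hxA)
        · exact absurd hx.1.2 (disjoint_left.1 hAB hxA)
      · rintro (h | h)
        · exact disjoint_left.1 hAB (hP2 h).2 hb
        · exact h.2 rfl
      · rintro x (hx | hx)
        · exact (hP2 hx).1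
        · exact hx.1.1
      · intro e he _
        obtain ⟨a, ha⟩ := hP4 ⟨e, he⟩
        exact ⟨a, (hP2 ha).2, Or.inl ha⟩
      · intro e he heY y hy
        have heb : e = b := by
          by_contra hne
          exact heY (Or.inr ⟨he, hne⟩)
        subst heb
        by_cases hye : y = e
        · exact Or.inl hye
        · exact Or.inr (Or.inr ⟨⟨hbX he.1 hy, hy⟩, hye⟩)
    · intro x hx
      rcases hX (hTX hx) with hA | hB'
      · exact Or.inl (hP1 ⟨hx, hA⟩)
      · refine Or.inr ⟨⟨hTX hx, hB'⟩, ?_⟩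
        rintro rfl
        exact hbT hx
  IB2 X hX B₁ h₁ B₂ h₂ x hx := by
    rw [mem_maxIn_iff hAB hX] at h₁ h₂
    obtain ⟨⟨s1, u1, b1, hb1, hb1'⟩, t1, v1, w1⟩ := h₁
    obtain ⟨⟨s2, u2, b2, hb2, hb2'⟩, t2, v2, w2⟩ := h₂
    rcases hX (t1 hx.1) with hA | hB'
    · obtain ⟨a, ha, haB⟩ := v2 x ⟨t1 hx.1, hA⟩ hx.2
      have hne : a ≠ x := by
        rintro rfl
        exact hx.2 haB
      have hnot : a ∉ B₁ := fun h => hne (u1 a ⟨h, ha⟩ x ⟨hx.1, hA⟩)
      refine ⟨a, ⟨haB, hnot⟩, ?_⟩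
      rw [mem_maxIn_iff hAB hX]
      refine ⟨⟨?_, ?_, b1, hb1, ?_⟩, ?_, ?_, ?_⟩
      · exact insert_subset (Or.inl ha) (sdiff_subset.trans s1)
      · have key : ∀ y, y ∈ insert a (B₁ \ {x}) → y ∈ A → y = a := by
          rintro y (rfl | hy) hyA
          · rfl
          · exact absurd (u1 y ⟨hy.1, hyA⟩ x ⟨hx.1, hA⟩) hy.2
        rintro y ⟨hy, hyA⟩ z ⟨hz, hzA⟩
        rw [key y hy hyA, key z hz hzA]
      · rintro (rfl | h)
        · exact disjoint_left.1 hAB ha hb1
        · exact hb1' h.1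
      · exact insert_subset (t2 haB) (sdiff_subset.trans t1)
      · intro e _ _
        exact ⟨a, ha, mem_insert _ _⟩
      · intro e he heY y hy
        have he1 : e ∉ B₁ := by
          intro h
          refine heY (Or.inr ⟨h, ?_⟩)
          rintro rfl
          exact disjoint_left.1 hAB hA he.2
        rcases w1 e he he1 hy with rfl | h
        · exact Or.inl rfl
        · refine Or.inr (Or.inr ⟨h, ?_⟩)
          rintro rfl
          exact disjoint_left.1 hAB hA hy
    · have hsub := w2 x ⟨t1 hx.1, hB'⟩ hx.2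
      have hb1x : b1 ≠ x := by
        rintro rfl
        exact hb1' hx.1
      have hb12 : b1 ∈ B₂ := by
        rcases hsub hb1 with rfl | h
        · exact absurd rfl hb1x
        · exact h
      have hBsub := w1 b1 ⟨t2 hb12, hb1⟩ hb1'
      refine ⟨b1, ⟨hb12, hb1'⟩, ?_⟩
      rw [mem_maxIn_iff hAB hX]
      refine ⟨⟨?_, ?_, x, hB', ?_⟩, ?_, ?_, ?_⟩
      · exact insert_subset (Or.inr hb1) (sdiff_subset.trans s1)
      · rintro y ⟨rfl | hy, hyA⟩ z ⟨rfl | hz, hzA⟩
        · rfl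
        · exact absurd hb1 (disjoint_left.1 hAB hyA)
        · exact absurd hb1 (disjoint_left.1 hAB hzA)
        · exact u1 y ⟨hy.1, hyA⟩ z ⟨hz.1, hzA⟩
      · rintro (h | h)
        · exact hb1x h.symm
        · exact h.2 rfl
      · exact insert_subset (t2 hb12) (sdiff_subset.trans t1)
      · intro e he heY
        have he1 : e ∉ B₁ := by
          intro h
          refine heY (Or.inr ⟨h, ?_⟩)
          rintro rfl
          exact disjoint_left.1 hAB he.2 hB'
        obtain ⟨a, ha, ha1⟩ := v1 e he he1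
        refine ⟨a, ha, Or.inr ⟨ha1, ?_⟩⟩
        rintro rfl
        exact disjoint_left.1 hAB ha hB'
      · intro e he heY y hy
        have hex : e = x := by
          by_contra hne
          have he1 : e ∉ B₁ := fun h => heY (Or.inr ⟨h, hne⟩)
          rcases w1 e he he1 hb1 with h | h
          · exact heY (Or.inl h.symm)
          · exact hb1' h
        subst hex
        by_cases hye : y = e
        · exact Or.inl hye
        · rcases hBsub hy with h | h
          · exact Or.inr (Or.inl h)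
          · exact Or.inr (Or.inr ⟨h, hye⟩)

theorem ex_not_mem {A B : Set S} (hAB : Disjoint A B) (hA : A.Infinite) (hB : B.Infinite) :
    ex A B ∉ indepOrDual (A ∪ B) := by
  rintro (h | ⟨J, hJ, h⟩)
  · have h1 : B ∈ ex A B := by
      refine h.compact B subset_union_right fun F hF hFf => ?_
      refine ⟨hF.trans subset_union_right, ?_, ?_⟩
      · rintro x ⟨hx, hxA⟩
        exact absurd (hF hx) (disjoint_left.1 hAB hxA)
      · obtain ⟨b, hb, hbF⟩ := (hB.sdiff hFf).nonempty
        exact ⟨b, hb, hbF⟩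
    obtain ⟨-, -, b, hb, hb'⟩ := h1
    exact hb' hb
  · have hJ2 : J = dual (A ∪ B) (ex A B) := by
      rw [h]
      exact (admissible.dual_dual (A ∪ B) J (Or.inl hJ)).symm
    have hb := bmatroid_ex hAB hB.nonempty
    have h1 : A ∈ J := by
      refine hJ.compact A subset_union_left fun F hF hFf => ?_
      rw [hJ2]
      refine ⟨hF.trans subset_union_left, ?_⟩
      obtain ⟨a, ha, haF⟩ := (hA.sdiff hFf).nonempty
      obtain ⟨b, hbB⟩ := hB.nonempty
      have ha' : {a} ∈ ex A B := by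
        refine ⟨by simpa using Or.inl ha, ?_, b, hbB, ?_⟩
        · rintro x ⟨rfl, -⟩ y ⟨rfl, -⟩
          rfl
        · rintro rfl
          exact disjoint_left.1 hAB ha hbB
      obtain ⟨C, hC0, haC⟩ := hb.IB1 (A ∪ B) le_rfl {a} ha' ha'.1
      have hC := mem_maxIn.1 hC0
      refine ⟨C, ⟨hC.prop.1, fun Z hZ hCZ => hC.le_of_ge ⟨hZ, hZ.1⟩ hCZ⟩, ?_⟩
      intro y hy
      refine ⟨hC.prop.2 hy, fun hyF => ?_⟩
      have := hC.prop.1.2.1 y ⟨hy, hF hyF⟩ a ⟨haC rfl, ha⟩
      subst this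
      exact haF hyF
    rw [hJ2] at h1
    obtain ⟨-, C, hC, hCA⟩ := h1
    obtain ⟨a, ha⟩ := hA.nonempty
    have hC' : C ∈ maxIn (ex A B) (A ∪ B) :=
      ⟨⟨hC.prop, hC.prop.1⟩, fun Z hZ hCZ => hC.le_of_ge hZ.1 hCZ⟩
    rw [mem_maxIn_iff hAB le_rfl] at hC'
    obtain ⟨a', ha', haC'⟩ := hC'.2.2.1 a ⟨Or.inl ha, ha⟩ fun h => (hCA h).2 ha
    exact (hCA haC').2 ha'

/-- Every infinite set is the union of two disjoint infinite sets. -/
theorem exists_split {W : Set S} (hW : W.Infinite) :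
    ∃ A B : Set S, Disjoint A B ∧ A.Infinite ∧ B.Infinite ∧ A ∪ B = W := by
  let f := hW.natEmbedding W
  let g : ℕ → S := fun n => f n
  have hg : Function.Injective g := fun m n h => f.injective (Subtype.ext h)
  let A : Set S := range fun n => g (2 * n)
  have hA : A ⊆ W := by
    rintro _ ⟨n, rfl⟩
    exact (f (2 * n)).2
  refine ⟨A, W \ A, disjoint_sdiff_right, infinite_range_of_injective fun m n h => ?_, ?_,
    union_sdiff_cancel hA⟩
  · have := hg h
    omega
  · refine (infinite_range_of_injective (f := fun n => g (2 * n + 1)) fun m n h => ?_).mono ?_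
    · have := hg h
      omega
    · rintro _ ⟨n, rfl⟩
      refine ⟨(f (2 * n + 1)).2, ?_⟩
      rintro ⟨m, hm⟩
      have := hg hm
      omega

/-- **Negative answer to Q1, for every infinite set `S`.** The independence spaces and their duals
form an admissible system `indepOrDual`; it contains all independence spaces, it is contained in
every admissible system that contains all independence spaces, and for every infinite `W ⊆ S`
(in particular for `W = S`) there is a B-matroid on `W` that does not belong to it. -/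
theorem result (S : Type*) [Infinite S] :
    Admissible (indepOrDual (S := S)) ∧
    (∀ (W : Set S) (I : Set (Set S)), IndependenceSpace W I → I ∈ indepOrDual W) ∧
    (∀ D : Set S → Set (Set (Set S)), Admissible D →
      (∀ (W : Set S) (I : Set (Set S)), IndependenceSpace W I → I ∈ D W) →
        ∀ W : Set S, indepOrDual W ⊆ D W) ∧
    (∀ W : Set S, W.Infinite → ∃ I : Set (Set S), BMatroid W I ∧ I ∉ indepOrDual W) ∧
    (Set.univ : Set S).Infinite := by
  refine ⟨admissible, fun W I h => Or.inl h, ?_, ?_, Set.infinite_univ⟩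
  · rintro D hD h W I (hI | ⟨J, hJ, rfl⟩)
    · exact h W I hI
    · exact hD.dual_mem W J (h W J hJ)
  · intro W hW
    obtain ⟨A, B, hAB, hA, hB, rfl⟩ := exists_split hW
    exact ⟨ex A B, bmatroid_ex hAB hB.nonempty, ex_not_mem hAB hA hB⟩

end Pool.Agent.Results.MP_cb2a9f_co.LeastAdmissible
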